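import Pool.Agent.Helper242.RM.Fin2

/-!
# The sign pattern of the Gauss-Kuzmin-Wirsing eigenvalues
-/

set_option autoImplicit false

namespace Pool.Agent.Results.MP_6cdbdb_an.SignsAlternate

open Module Module.End

/-- The closed disc `|x - 1| ≤ 3/2`, the closure of the disc `𝔻`. -/
abbrev Disc : Set ℂ := Metric.closedBall (1 : ℂ) (3 / 2)

open Classical in
/-- Extension by zero to `ℂ` of a function on the closed disc. -/
noncomputable def ext (f : C(Disc, ℂ)) : ℂ → ℂ := fun z => if h : z ∈ Disc then f ⟨z, h⟩ else 0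

/-- The continuous function `f` on the closed disc is analytic in the open disc `𝔻`. -/
def IsAnalytic (f : C(Disc, ℂ)) : Prop :=
  DifferentiableOn ℂ (ext f) (Metric.ball (1 : ℂ) (3 / 2))

lemma ext_add (f g : C(Disc, ℂ)) : ext (f + g) = ext f + ext g := by
  funext z
  by_cases h : z ∈ Disc <;> simp [ext, h]

lemma ext_zero : ext (0 : C(Disc, ℂ)) = fun _ => 0 := by
  funext z
  by_cases h : z ∈ Disc <;> simp [ext, h]

lemma ext_smul (c : ℂ) (f : C(Disc, ℂ)) : ext (c • f) = c • ext f := by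
  funext z
  by_cases h : z ∈ Disc <;> simp [ext, h]

lemma isAnalytic_add {f g : C(Disc, ℂ)} (hf : IsAnalytic f) (hg : IsAnalytic g) :
    IsAnalytic (f + g) := by
  unfold IsAnalytic
  rw [ext_add]
  exact hf.add hg

lemma isAnalytic_zero : IsAnalytic 0 := by
  unfold IsAnalytic
  rw [ext_zero]
  exact differentiableOn_const 0

lemma isAnalytic_smul (c : ℂ) {f : C(Disc, ℂ)} (hf : IsAnalytic f) : IsAnalytic (c • f) := by
  unfold IsAnalytic
  rw [ext_smul]
  exact hf.const_smul c

/-- The continuous functions on the closed disc which are analytic in the open disc form a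
linear subspace of the continuous functions. -/
noncomputable def VSub : Submodule ℂ C(Disc, ℂ) where
  carrier := {f | IsAnalytic f}
  add_mem' := isAnalytic_add
  zero_mem' := isAnalytic_zero
  smul_mem' := isAnalytic_smul

/-- The space `𝐕` of the problem: the continuous functions on the closed disc which are analytic
in the open disc `𝔻`. -/
def V : Type := {f : C(Disc, ℂ) // IsAnalytic f}

/-- The linear structure of `𝐕` is the pointwise one. -/
noncomputable instance instAddCommGroupV : AddCommGroup V := Submodule.addCommGroup VSub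

/-- The linear structure of `𝐕` is the pointwise one. -/
noncomputable instance instModuleV : Module ℂ V := Submodule.module VSub

/-- The value `𝓛[f](x) = ∑_{m ≥ 1} (x+m)^{-2} f(1/(x+m))` (the index is shifted by one, and
`1/(x+m)` lies in the disc for every `x` in the disc). -/
noncomputable def Lval (f : C(Disc, ℂ)) (x : ℂ) : ℂ :=
  ∑' m : ℕ, 1 / (x + ((m : ℂ) + 1)) ^ 2 * ext f (1 / (x + ((m : ℂ) + 1)))

lemma two_gt : (1 : ℝ) < 2 := by norm_num

lemma cpow_two (z : ℂ) : z ^ (-((2 : ℝ) : ℂ)) = 1 / z ^ 2 := by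
  have h : (-((2 : ℝ) : ℂ)) = ((-2 : ℤ) : ℂ) := by push_cast; rfl
  rw [h, Complex.cpow_intCast, zpow_neg, one_div]
  norm_cast

lemma Lval_eq (f : C(Disc, ℂ)) (x : ℂ) : Lval f x = Pool.Agent.Helper242.RM.Gval 2 f x := by
  unfold Lval Pool.Agent.Helper242.RM.Gval
  refine tsum_congr fun m => ?_
  rw [cpow_two, one_div (x + ((m : ℂ) + 1))]
  rfl

/-- Sanity: the points at which `f` is evaluated lie in the disc, and the series converges. -/
lemma sanity (f : C(Disc, ℂ)) (x : ℂ) (hx : x ∈ Disc) :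
    (∀ m : ℕ, 1 / (x + ((m : ℂ) + 1)) ∈ Disc) ∧
    Summable (fun m : ℕ => 1 / (x + ((m : ℂ) + 1)) ^ 2 * ext f (1 / (x + ((m : ℂ) + 1)))) := by
  constructor
  · intro m
    rw [one_div]
    exact Pool.Agent.Helper242.RM.gv_inv_mem x hx m
  · have h := Pool.Agent.Helper242.RM.gv_term_summable 2 two_gt f x hx
    refine h.congr fun m => ?_
    rw [cpow_two, one_div (x + ((m : ℂ) + 1))]
    rfl

lemma continuous_Lval (f : V) : Continuous (fun x : Disc => Lval f.1 x) := by
  have h := Pool.Agent.Helper242.RM.Gval_continuous 2 two_gt f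
  refine h.congr fun x => ?_
  exact (Lval_eq f.1 x).symm

/-- The function `𝓛[f]` on the closed disc. -/
noncomputable def LC (f : V) : C(Disc, ℂ) := ⟨fun x : Disc => Lval f.1 x, continuous_Lval f⟩

lemma LC_eq (f : V) : LC f = (Pool.Agent.Helper242.RM.G 2 two_gt f).1 := by
  ext x
  exact Lval_eq f.1 x

lemma isAnalytic_LC (f : V) : IsAnalytic (LC f) := by
  rw [LC_eq]
  exact (Pool.Agent.Helper242.RM.G 2 two_gt f).2

/-- The Gauss-Kuzmin-Wirsing operator `𝓛 : 𝐕 → 𝐕` as a map. -/
noncomputable def Lfun (f : V) : V := ⟨LC f, isAnalytic_LC f⟩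

lemma Lfun_eq (f : V) : Lfun f = (Pool.Agent.Helper242.RM.G 2 two_gt f : Pool.Agent.Helper242.RM.X) :=
  Subtype.ext (LC_eq f)

lemma Lfun_add (f g : V) : Lfun (f + g) = Lfun f + Lfun g := by
  rw [Lfun_eq, Lfun_eq, Lfun_eq]
  exact (Pool.Agent.Helper242.RM.G 2 two_gt).map_add f g

lemma Lfun_smul (c : ℂ) (f : V) : Lfun (c • f) = c • Lfun f := by
  rw [Lfun_eq, Lfun_eq]
  exact (Pool.Agent.Helper242.RM.G 2 two_gt).map_smul c f

/-- The Gauss-Kuzmin-Wirsing operator `𝓛 : 𝐕 → 𝐕` as a linear map. -/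
noncomputable def L : Module.End ℂ V where
  toFun := Lfun
  map_add' := Lfun_add
  map_smul' := Lfun_smul

/-- Sanity: `𝓛[f](x) = ∑_{m ≥ 1} (x+m)^{-2} f(1/(x+m))` for `x` in the closed disc. -/
lemma L_apply (f : V) (x : Disc) :
    (L f).1 x = ∑' m : ℕ, 1 / ((x : ℂ) + ((m : ℂ) + 1)) ^ 2 *
      f.1 ⟨1 / ((x : ℂ) + ((m : ℂ) + 1)), (sanity f.1 x x.2).1 m⟩ := by
  change Lval f.1 x = _
  unfold Lval
  refine tsum_congr fun m => ?_
  rw [ext, dif_pos]

/-- `μ` is an eigenvalue of `𝓛 : 𝐕 → 𝐕`. -/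
def IsEigenvalue (μ : ℂ) : Prop := HasEigenvalue L μ

/-- The (algebraic) multiplicity of `μ` as an eigenvalue of `𝓛`: the dimension of the generalised
eigenspace. -/
noncomputable def mult (μ : ℂ) : ℕ := finrank ℂ (maxGenEigenspace L μ)

/-- The sequence `λ_1, λ_2, …` of the problem: `lam 1, lam 2, lam 3, …` lists the nonzero
eigenvalues of `𝓛 : 𝐕 → 𝐕`, each repeated according to its multiplicity, by nonincreasing
absolute value. -/
structure IsEigenvalueList (lam : ℕ+ → ℂ) : Prop where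
  /-- the entries are nonzero -/
  ne_zero : ∀ n, lam n ≠ 0
  /-- the entries are eigenvalues -/
  isEigenvalue : ∀ n, IsEigenvalue (lam n)
  /-- each nonzero value occurs finitely often -/
  finite : ∀ μ : ℂ, μ ≠ 0 → {n | lam n = μ}.Finite
  /-- each nonzero eigenvalue occurs as often as its multiplicity -/
  card : ∀ μ : ℂ, μ ≠ 0 → IsEigenvalue μ → {n | lam n = μ}.ncard = mult μ
  /-- the absolute values are nonincreasing -/
  antitone : ∀ i j, i ≤ j → ‖lam j‖ ≤ ‖lam i‖

lemma L_eq : L = (Pool.Agent.Helper242.RM.G 2 two_gt :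
    Module.End ℂ Pool.Agent.Helper242.RM.X) :=
  LinearMap.ext fun f => Lfun_eq f

lemma isEigenvalueList_iff (lam : ℕ+ → ℂ) :
    IsEigenvalueList lam ↔ Pool.Agent.Helper242.RM.IsEigenvalueList 2 two_gt lam := by
  constructor
  · rintro ⟨h1, h2, h3, h4, h5⟩
    unfold IsEigenvalue mult at *
    rw [L_eq] at *
    exact ⟨h1, h2, h3, h4, h5⟩
  · rintro ⟨h1, h2, h3, h4, h5⟩
    refine ⟨h1, ?_, h3, ?_, h5⟩
    · unfold IsEigenvalue
      rw [L_eq]
      exact h2
    · unfold IsEigenvalue mult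
      rw [L_eq]
      exact h4

/-- The sequence `λ_1, λ_2, …` of the nonzero eigenvalues of the Gauss-Kuzmin-Wirsing operator,
listed with multiplicity by nonincreasing absolute value, exists (and is infinite), and in every
such listing `λ_n` is real and `(-1)^(n+1) λ_n > 0` for every `n ≥ 1`. -/
theorem result :
    (∃ lam : ℕ+ → ℂ, IsEigenvalueList lam) ∧
    ∀ lam : ℕ+ → ℂ, IsEigenvalueList lam → ∀ n : ℕ+,
      ∃ x : ℝ, lam n = (x : ℂ) ∧ 0 < (-1 : ℝ) ^ ((n : ℕ) + 1) * x := by
  refine ⟨?_, ?_⟩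
  · obtain ⟨lam, h⟩ := Pool.Agent.Helper242.RM.exists_list 2 two_gt
    exact ⟨lam, (isEigenvalueList_iff lam).2 h⟩
  · intro lam h n
    exact Pool.Agent.Helper242.RM.list_sign 2 two_gt lam ((isEigenvalueList_iff lam).1 h) n

end Pool.Agent.Results.MP_6cdbdb_an.SignsAlternate
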